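import Pool.Agent.TH660.CI.Core
import Pool.Agent.TH660.RB.Common
import Pool.Agent.H601R2.PP
import Pool.Agent.H673R2.Search
import Pool.Agent.NPC.Sat
import Pool.Agent.NPC.Classes
import Pool.Agent.H642R2.TMSim

/-!
# MP_bb030f_lc: CIS recognition is coNP-complete

A graph is CIS if every maximal clique meets every maximal stable set. The reduction is from the
complement of SAT. The graph has the literals of the `n` variables as vertices, two literals being
adjacent if they belong to different variables, and for each clause `j` and each literal `(s, i)`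
that is not in clause `j` a vertex `p j i s`. The vertices `p j i s`, `p j i' s'` are adjacent if
`i ≠ i'`, and the literal `(s, i)` is adjacent to `p j i' s'` if `(s, i)` is not in clause `j` and is
not the negation of `(s', i')`. Two unit clauses with new variables are added to the formula.

A satisfying assignment is a maximal clique of the graph, and it is dominated by the stable set that
consists of the four vertices `p a b ±`, `p b a ±` where `a` and `b` are the two new clauses (with
their variables). If the formula cannot be satisfied, then each maximal clique contains some vertex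
`p j i s`, and it is strong.
-/

set_option autoImplicit false

namespace Pool.Agent.Results.MP_bb030f_lc.CoNPComplete

open Pool.Agent.NPC Pool.Agent.H673R2 Pool.Agent.TH660.CI

/-! ### CIS graphs -/

/-- `G` is a CIS graph: every maximal clique meets every maximal stable set. -/
def CIS {V : Type} (G : SimpleGraph V) : Prop :=
  ∀ C S : Set V, Maximal G.IsClique C → Maximal G.IsIndepSet S → (C ∩ S).Nonempty

/-! ### Adjacency matrices -/

/-- A square matrix with entries `true` and `false`, given by its rows. -/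
abbrev Inst : Type := List (List Bool)

/-- The entry in row `u` and column `v`. -/
def entry (A : Inst) (u v : ℕ) : Bool := (A.getD u []).getD v false

/-- `A` is the adjacency matrix of a finite simple graph: it is square and symmetric, and the
entries on the diagonal are `false`. -/
def Valid (A : Inst) : Prop :=
  (∀ r ∈ A, r.length = A.length) ∧ (∀ u v, entry A u v = entry A v u) ∧ ∀ u, entry A u u = false

/-- The graph with adjacency matrix `A` (the vertices are `0, …, n - 1`, where `n` is the number of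
rows). -/
def graph (A : Inst) : SimpleGraph (Fin A.length) :=
  SimpleGraph.fromRel (fun u v => entry A u v = true)

/-! ### The reduction -/

/-- the occurrences of variables -/
def vs (φ : List (List (Bool × ℕ))) : List ℕ := φ.flatten.map Prod.snd

/-- the number of variables of the graph -/
def nn (φ : List (List (Bool × ℕ))) : ℕ := (vs φ).length + 2

/-- the number of clauses of the graph -/
def mm (φ : List (List (Bool × ℕ))) : ℕ := φ.length + 2

/-- the number of literals of the graph -/
def W (φ : List (List (Bool × ℕ))) : ℕ := 2 * nn φ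

/-- the number of vertices -/
def NN (φ : List (List (Bool × ℕ))) : ℕ := (mm φ + 1) * W φ

/-- the renamed clause -/
noncomputable def ren (l : List ℕ) (c : List (Bool × ℕ)) : List (Bool × ℕ) :=
  c.map (fun p => (p.1, index l p.2))

/-- clause `j` -/
noncomputable def cl (φ : List (List (Bool × ℕ))) (j : ℕ) : List (Bool × ℕ) :=
  if j = φ.length then [(true, (vs φ).length)]
  else if j = φ.length + 1 then [(true, (vs φ).length + 1)]
  else ren (vs φ) (φ.getD j [])

/-- the incidence relation of literals and clauses -/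
def CC (φ : List (List (Bool × ℕ))) (j : ℕ) (s : Bool) (i : ℕ) : Prop := (s, i) ∈ cl φ j

/-- the literal of the vertex with number `u` -/
def lit (w u : ℕ) : Bool × ℕ := (decide (u % w % 2 = 1), u % w / 2)

/-- the number `u` is the number of a vertex of the gadget graph -/
def ok (φ : List (List (Bool × ℕ))) (u : ℕ) : Prop :=
  u / W φ = 0 ∨ lit (W φ) u ∉ cl φ (u / W φ - 1)

open Classical in
/-- adjacency in one direction, in terms of the numbers of the vertices -/
noncomputable def adj1 (φ : List (List (Bool × ℕ))) (u v : ℕ) : Bool :=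
  decide (ok φ u ∧ ok φ v ∧
    ((u / W φ = v / W φ ∧ (lit (W φ) u).2 ≠ (lit (W φ) v).2) ∨
      (u / W φ = 0 ∧ v / W φ ≠ 0 ∧ lit (W φ) u ∉ cl φ (v / W φ - 1) ∧
        ((lit (W φ) u).2 ≠ (lit (W φ) v).2 ∨ (lit (W φ) u).1 = (lit (W φ) v).1))))

/-- the adjacency matrix -/
noncomputable def red (φ : List (List (Bool × ℕ))) : Inst :=
  (List.range (NN φ)).map (fun u => (List.range (NN φ)).map (fun v => adj1 φ u v || adj1 φ v u))

/-- the vertex with number `u` -/
def dec (w u : ℕ) : Vx :=
  if u / w = 0 then Vx.l (lit w u).2 (lit w u).1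
  else Vx.p (u / w - 1) (lit w u).2 (lit w u).1

theorem lit_inj {w u v : ℕ} (h1 : u / w = v / w) (h2 : (lit w u).2 = (lit w v).2)
    (h3 : (lit w u).1 = (lit w v).1) : u = v := by
  unfold lit at h2 h3
  simp only at h2 h3
  have hu := Nat.div_add_mod u w
  have hv := Nat.div_add_mod v w
  have h4 : u % w % 2 = v % w % 2 := by
    have a1 := Nat.mod_lt (u % w) (show 0 < 2 by norm_num)
    have a2 := Nat.mod_lt (v % w) (show 0 < 2 by norm_num)
    by_cases h : u % w % 2 = 1
    · rw [decide_eq_true h] at h3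
      have := of_decide_eq_true h3.symm
      omega
    · rw [decide_eq_false h] at h3
      have := of_decide_eq_false h3.symm
      omega
  have h5 : u % w = v % w := by omega
  rw [← hu, ← hv, h1, h5]

theorem dec_inj (w : ℕ) : Function.Injective (dec w) := by
  intro u v h
  unfold dec at h
  split_ifs at h with h1 h2 h2
  · injection h with h3 h4
    exact lit_inj (h1.trans h2.symm) h3 h4
  · injection h with h0 h3 h4
    refine lit_inj ?_ h3 h4
    revert h0 h1 h2
    generalize u / w = a
    generalize v / w = b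
    omega

variable {φ : List (List (Bool × ℕ))}

/-- the number of a vertex -/
def enc (w : ℕ) : Vx → ℕ
  | Vx.l i s => 2 * i + (if s then 1 else 0)
  | Vx.p j i s => w * (j + 1) + (2 * i + (if s then 1 else 0))

theorem lit_enc {n i : ℕ} (hi : i < n) (k : ℕ) (s : Bool) :
    (2 * n * k + (2 * i + (if s then 1 else 0))) / (2 * n) = k ∧
      lit (2 * n) (2 * n * k + (2 * i + (if s then 1 else 0))) = (s, i) := by
  have hlt : 2 * i + (if s then 1 else 0) < 2 * n := by split_ifs <;> omega
  have h1 : (2 * n * k + (2 * i + (if s then 1 else 0))) / (2 * n) = k := by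
    rw [Nat.mul_add_div (by omega), Nat.div_eq_of_lt hlt, Nat.add_zero]
  have h2 : (2 * n * k + (2 * i + (if s then 1 else 0))) % (2 * n) =
      2 * i + (if s then 1 else 0) := by
    rw [Nat.mul_add_mod, Nat.mod_eq_of_lt hlt]
  refine ⟨h1, ?_⟩
  unfold lit
  rw [h2]
  cases s
  · have e1 : (2 * i + 0) % 2 = 0 := by omega
    have e2 : (2 * i + 0) / 2 = i := by omega
    simp only [Bool.false_eq_true, if_false, e1, e2]
    simp
  · have e1 : (2 * i + 1) % 2 = 1 := by omega
    have e2 : (2 * i + 1) / 2 = i := by omega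
    simp only [if_true, e1, e2]
    simp

theorem dec_enc {n m : ℕ} {C : ℕ → Bool → ℕ → Prop} {w : Vx} (h : val n m C w) :
    dec (2 * n) (enc (2 * n) w) = w := by
  cases w with
  | l i s =>
    have h1 := lit_enc (n := n) (i := i) h 0 s
    simp only [Nat.mul_zero, Nat.zero_add] at h1
    simp only [enc, dec, h1.1, h1.2, if_true]
  | p j i s =>
    have h1 := lit_enc (n := n) (i := i) h.2.1 (j + 1) s
    simp only [enc, dec, h1.1, h1.2, Nat.add_eq_zero_iff, one_ne_zero, and_false, if_false,
      Nat.add_sub_cancel]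

theorem enc_lt {n m : ℕ} {C : ℕ → Bool → ℕ → Prop} {w : Vx} (h : val n m C w) :
    enc (2 * n) w < (m + 1) * (2 * n) := by
  cases w with
  | l i s =>
    have hi : i < n := h
    have h1 : 2 * i + (if s then 1 else 0) < 2 * n := by split_ifs <;> omega
    have h2 : 1 * (2 * n) ≤ (m + 1) * (2 * n) := Nat.mul_le_mul_right _ (by omega)
    simp only [enc]
    omega
  | p j i s =>
    have hi : i < n := h.2.1
    have hj : j < m := h.1
    have h1 : 2 * i + (if s then 1 else 0) < 2 * n := by split_ifs <;> omega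
    have h2 : 2 * n * (j + 1) ≤ 2 * n * m := Nat.mul_le_mul_left _ (by omega)
    have h3 : (m + 1) * (2 * n) = 2 * n * m + 2 * n := by ring
    simp only [enc]
    omega

theorem W_pos : 0 < W φ := by unfold W nn; omega

theorem val_dec {u : ℕ} (hu : u < NN φ) :
    val (nn φ) (mm φ) (CC φ) (dec (W φ) u) ↔ ok φ u := by
  have h1 : u / W φ < mm φ + 1 := Nat.div_lt_of_lt_mul (by unfold NN at hu; rwa [mul_comm] at hu)
  have h2 : (lit (W φ) u).2 < nn φ := by
    unfold lit
    have := Nat.mod_lt u (W_pos (φ := φ))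
    simp only
    unfold W at *
    omega
  unfold dec ok
  split_ifs with h
  · simp only [val, h2, h, true_or]
  · simp only [val, h2, h, true_and, false_or, CC]
    constructor
    · rintro ⟨_, h'⟩
      exact h'
    · intro h'
      refine ⟨?_, h'⟩
      revert h1 h
      generalize u / W φ = a
      omega

theorem adj1_def (u v : ℕ) : adj1 φ u v = true ↔ (ok φ u ∧ ok φ v ∧
    ((u / W φ = v / W φ ∧ (lit (W φ) u).2 ≠ (lit (W φ) v).2) ∨
      (u / W φ = 0 ∧ v / W φ ≠ 0 ∧ lit (W φ) u ∉ cl φ (v / W φ - 1) ∧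
        ((lit (W φ) u).2 ≠ (lit (W φ) v).2 ∨ (lit (W φ) u).1 = (lit (W φ) v).1)))) := by
  unfold adj1
  simp only [decide_eq_true_eq]

theorem adj1_iff {u v : ℕ} (hu : u < NN φ) (hv : v < NN φ) :
    adj1 φ u v = true ↔ val (nn φ) (mm φ) (CC φ) (dec (W φ) u) ∧
      val (nn φ) (mm φ) (CC φ) (dec (W φ) v) ∧ Adj1 (CC φ) (dec (W φ) u) (dec (W φ) v) := by
  rw [val_dec hu, val_dec hv, adj1_def]
  refine and_congr_right fun _ => and_congr_right fun _ => ?_
  unfold dec
  by_cases h1 : u / W φ = 0 <;> by_cases h2 : v / W φ = 0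
  · simp [h1, h2, Adj1]
  · have h3 : ¬ (0 = v / W φ) := fun h => h2 h.symm
    simp only [h1, h2, h3, Adj1, CC, if_true, if_false, false_and, false_or, true_and, ne_eq,
      not_false_eq_true]
    refine and_congr_right fun _ => ?_
    tauto
  · simp [h1, h2, Adj1]
  · simp only [h1, h2, Adj1, if_false, false_and, or_false]
    refine and_congr_left fun _ => ?_
    revert h1 h2
    generalize u / W φ = a
    generalize v / W φ = b
    omega

theorem red_length : (red φ).length = NN φ := by
  simp [red]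

theorem entry_red (u v : ℕ) : entry (red φ) u v =
    (decide (u < NN φ) && decide (v < NN φ) && (adj1 φ u v || adj1 φ v u)) := by
  unfold entry red
  by_cases hu : u < NN φ
  · by_cases hv : v < NN φ
    · simp [List.getD_eq_getElem?_getD, hu, hv]
    · simp [List.getD_eq_getElem?_getD, hu, hv]
  · simp [List.getD_eq_getElem?_getD, hu]

theorem not_adj1_self (u : ℕ) : adj1 φ u u = false := by
  by_contra h
  have h' : adj1 φ u u = true := by simpa using h
  rw [adj1_def] at h'
  rcases h' with ⟨_, _, ⟨_, h⟩ | ⟨h, h', _⟩⟩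
  · exact h rfl
  · exact h' h

theorem red_valid : Valid (red φ) := by
  refine ⟨?_, ?_, ?_⟩
  · intro r hr
    rw [red_length]
    unfold red at hr
    rw [List.mem_map] at hr
    obtain ⟨u, _, rfl⟩ := hr
    simp
  · intro u v
    rw [entry_red, entry_red, Bool.or_comm, Bool.and_comm (decide (u < _))]
  · intro u
    rw [entry_red, not_adj1_self]
    simp

theorem graph_adj (u v : Fin (red φ).length) : (graph (red φ)).Adj u v ↔
    val (nn φ) (mm φ) (CC φ) (dec (W φ) u) ∧ val (nn φ) (mm φ) (CC φ) (dec (W φ) v) ∧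
      Adj (CC φ) (dec (W φ) u) (dec (W φ) v) := by
  have hu : (u : ℕ) < NN φ := by rw [← red_length]; exact u.isLt
  have hv : (v : ℕ) < NN φ := by rw [← red_length]; exact v.isLt
  have h1 := adj1_iff hu hv
  have h2 := adj1_iff hv hu
  unfold graph
  rw [SimpleGraph.fromRel_adj, entry_red, entry_red]
  simp only [hu, hv, decide_true, Bool.true_and, Bool.or_eq_true, h1, h2]
  constructor
  · rintro ⟨_, (h | h) | (h | h)⟩
    · exact ⟨h.1, h.2.1, Or.inl h.2.2⟩
    · exact ⟨h.2.1, h.1, Or.inr h.2.2⟩
    · exact ⟨h.2.1, h.1, Or.inr h.2.2⟩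
    · exact ⟨h.1, h.2.1, Or.inl h.2.2⟩
  · rintro ⟨hu', hv', h⟩
    refine ⟨?_, Or.inl ?_⟩
    · rintro rfl
      rcases h with h | h
      · have := h1.2 ⟨hu', hv', h⟩
        rw [not_adj1_self] at this
        exact absurd this (by simp)
      · have := h1.2 ⟨hu', hv', h⟩
        rw [not_adj1_self] at this
        exact absurd this (by simp)
    · rcases h with h | h
      · exact Or.inl ⟨hu', hv', h⟩
      · exact Or.inr ⟨hv', hu', h⟩

/-! ### The clauses -/

theorem index_lt {l : List ℕ} {v : ℕ} (h : v ∈ l) : index l v < l.length := by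
  have := getElem?_index h
  exact (List.getElem?_eq_some_iff.1 this).1

theorem mem_vs {c : List (Bool × ℕ)} (hc : c ∈ φ) {p : Bool × ℕ} (hp : p ∈ c) : p.2 ∈ vs φ := by
  unfold vs
  exact List.mem_map.2 ⟨p, List.mem_flatten.2 ⟨c, hc, hp⟩, rfl⟩

theorem CC_a (s : Bool) (i : ℕ) : CC φ φ.length s i ↔ s = true ∧ i = (vs φ).length := by
  unfold CC cl
  rw [if_pos rfl, List.mem_singleton, Prod.mk.injEq]

theorem CC_b (s : Bool) (i : ℕ) : CC φ (φ.length + 1) s i ↔ s = true ∧ i = (vs φ).length + 1 := by
  unfold CC cl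
  rw [if_neg (by omega), if_pos rfl, List.mem_singleton, Prod.mk.injEq]

theorem cl_lt {j : ℕ} (hj : j < φ.length) : cl φ j = ren (vs φ) φ[j] := by
  unfold cl
  rw [if_neg (by omega), if_neg (by omega), List.getD_eq_getElem?_getD,
    List.getElem?_eq_getElem hj]
  rfl

/-- a satisfying assignment gives one of the new formula -/
theorem sat_of_sat (h : SAT φ) : ∃ τ : ℕ → Bool, ∀ j < mm φ, ∃ i < nn φ, CC φ j (τ i) i := by
  obtain ⟨τ, hτ⟩ := h
  refine ⟨fun i => if (vs φ).length ≤ i then true else τ ((vs φ).getD i 0), fun j hj => ?_⟩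
  unfold mm at hj
  unfold nn
  by_cases h1 : j = φ.length
  · subst h1
    exact ⟨(vs φ).length, by omega, (CC_a _ _).2 (by simp)⟩
  by_cases h2 : j = φ.length + 1
  · subst h2
    exact ⟨(vs φ).length + 1, by omega, (CC_b _ _).2 (by simp)⟩
  have hj' : j < φ.length := by omega
  obtain ⟨p, hp, hp'⟩ := hτ φ[j] (List.getElem_mem hj')
  have hm := mem_vs (List.getElem_mem hj') hp
  have hlt := index_lt hm
  refine ⟨index (vs φ) p.2, by omega, ?_⟩
  unfold CC
  rw [cl_lt hj']
  have h3 : ¬ ((vs φ).length ≤ index (vs φ) p.2) := by omega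
  simp only [h3, if_false]
  have h4 : (vs φ).getD (index (vs φ) p.2) 0 = p.2 := by
    rw [List.getD_eq_getElem?_getD, getElem?_index hm]
    rfl
  rw [h4, hp']
  exact List.mem_map.2 ⟨p, hp, rfl⟩

/-- a satisfying assignment of the new formula gives one of the old formula -/
theorem sat_of_new {τ : ℕ → Bool} (hτ : ∀ j < mm φ, ∃ i < nn φ, CC φ j (τ i) i) : SAT φ := by
  refine ⟨fun v => τ (index (vs φ) v), fun c hc => ?_⟩
  obtain ⟨k, hk, rfl⟩ := List.getElem_of_mem hc
  obtain ⟨i, _, hm⟩ := hτ k (by unfold mm; omega)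
  unfold CC at hm
  rw [cl_lt hk] at hm
  unfold ren at hm
  rw [List.mem_map] at hm
  obtain ⟨p, hp, hpe⟩ := hm
  simp only [Prod.mk.injEq] at hpe
  refine ⟨p, hp, ?_⟩
  simp only
  rw [hpe.2, hpe.1]

/-! ### Correctness -/

theorem NN_pos : 0 < NN φ := Nat.mul_pos (by omega) W_pos

theorem exists_code {w : Vx} (hw : val (nn φ) (mm φ) (CC φ) w) :
    ∃ u : Fin (red φ).length, dec (W φ) u = w := by
  refine ⟨⟨enc (W φ) w, ?_⟩, dec_enc hw⟩
  rw [red_length]
  exact enc_lt hw

theorem dec_inj' : Function.Injective (fun u : Fin (red φ).length => dec (W φ) u) :=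
  fun _ _ h => Fin.ext (dec_inj _ h)

theorem not_cis_of_sat (h : SAT φ) : ¬ CIS (graph (red φ)) := by
  obtain ⟨τ, hτ⟩ := sat_of_sat h
  obtain ⟨K, S, hKv, hKc, hKm, hSv, hSs, hdom⟩ := not_strong_of_sat (C := CC φ) τ hτ
    (vs φ).length ((vs φ).length + 1) φ.length (φ.length + 1) (by omega) (by unfold nn; omega)
    (by unfold nn; omega) (by unfold mm; omega) (by unfold mm; omega) CC_a CC_b
  intro hcis
  have hKne : K.Nonempty := by
    by_contra hno
    rw [Set.not_nonempty_iff_eq_empty] at hno
    have h1 := hKm (Vx.l 0 true) (show 0 < nn φ by unfold nn; omega) (fun u hu => by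
      rw [hno] at hu
      exact absurd hu (Set.notMem_empty u))
    rw [hno] at h1
    exact h1
  have hK : Maximal (graph (red φ)).IsClique {u : Fin (red φ).length | dec (W φ) u ∈ K} := by
    refine ⟨?_, ?_⟩
    · intro u hu v hv hne
      exact (graph_adj u v).2 ⟨hKv _ hu, hKv _ hv, hKc _ hu _ hv (fun e => hne (dec_inj' e))⟩
    · intro L hL hle u hu
      obtain ⟨w, hw⟩ := hKne
      obtain ⟨w, rfl⟩ := exists_code (hKv w hw)
      have hwL : w ∈ L := hle hw
      by_cases huw : u = w
      · rw [huw]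
        exact hw
      have hval := ((graph_adj u w).1 (hL hu hwL huw)).1
      refine hKm _ hval fun z hz hne => ?_
      obtain ⟨z, rfl⟩ := exists_code (hKv z hz)
      have hzL : z ∈ L := hle hz
      exact ((graph_adj z u).1 (hL hzL hu (fun e => hne (by rw [e])))).2.2
  have hS0 : (graph (red φ)).IsIndepSet {u : Fin (red φ).length | dec (W φ) u ∈ S} := by
    intro u hu v hv hne hadj
    exact hSs _ hu _ hv (fun e => hne (dec_inj' e)) ((graph_adj u v).1 hadj).2.2
  obtain ⟨S', hle, hS'⟩ := Finite.exists_le_maximal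
    (p := fun T : Set (Fin (red φ).length) => (graph (red φ)).IsIndepSet T) hS0
  obtain ⟨u, huK, huS⟩ := hcis _ S' hK hS'
  obtain ⟨w, hw, hadj⟩ := hdom _ huK
  obtain ⟨w, rfl⟩ := exists_code (hSv w hw)
  have hwS : w ∈ S' := hle hw
  have hadj' : (graph (red φ)).Adj u w := (graph_adj u w).2 ⟨hKv _ huK, hSv _ hw, hadj⟩
  exact hS'.prop huS hwS hadj'.ne hadj'

theorem cis_of_unsat (h : ¬ SAT φ) : CIS (graph (red φ)) := by
  intro K S hK hS
  by_contra hno
  rw [Set.not_nonempty_iff_eq_empty] at hno
  have hdis : ∀ u ∈ K, u ∉ S := by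
    intro u hu hu'
    have : u ∈ K ∩ S := ⟨hu, hu'⟩
    rw [hno] at this
    exact this
  have hdom : ∀ u ∈ K, ∃ v ∈ S, (graph (red φ)).Adj u v := by
    intro u hu
    by_contra hno
    push Not at hno
    apply hdis u hu
    have h1 : (graph (red φ)).IsIndepSet (insert u S) := by
      intro x hx y hy hne hadj
      rcases hx with rfl | hx <;> rcases hy with rfl | hy
      · exact hne rfl
      · exact hno _ hy hadj
      · exact hno _ hx hadj.symm
      · exact hS.prop hx hy hne hadj
    exact hS.le_of_ge h1 (Set.subset_insert _ _) (Set.mem_insert _ _)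
  have hmax : ∀ u, (∀ v ∈ K, v ≠ u → (graph (red φ)).Adj v u) → u ∈ K := by
    intro u hu
    have h1 : (graph (red φ)).IsClique (insert u K) :=
      hK.prop.insert fun v hv hne => (hu v hv hne.symm).symm
    exact hK.le_of_ge h1 (Set.subset_insert _ _) (Set.mem_insert _ _)
  have hne : K.Nonempty := by
    have h0 : 0 < (red φ).length := by
      rw [red_length]
      exact NN_pos
    by_contra hno
    rw [Set.not_nonempty_iff_eq_empty] at hno
    have := hmax ⟨0, h0⟩ (fun v hv => by
      rw [hno] at hv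
      exact absurd hv (Set.notMem_empty v))
    rw [hno] at this
    exact this
  have hKv : ∀ u ∈ K, val (nn φ) (mm φ) (CC φ) (dec (W φ) u) := by
    intro u hu
    obtain ⟨v, _, hv⟩ := hdom u hu
    exact ((graph_adj u v).1 hv).1
  refine strong_of_unsat (n := nn φ) (m := mm φ) (C := CC φ) (by unfold nn; omega) ?_
    {w | ∃ u ∈ K, dec (W φ) u = w}
    {w | (∃ u ∈ S, dec (W φ) u = w) ∧ val (nn φ) (mm φ) (CC φ) w} ?_ ?_ ?_ ?_ ?_ ?_ ?_ ?_
  · intro τ
    by_contra hno
    push Not at hno
    exact h (sat_of_new hno)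
  · rintro _ ⟨u, hu, rfl⟩
    exact hKv u hu
  · obtain ⟨u, hu⟩ := hne
    exact ⟨_, u, hu, rfl⟩
  · rintro _ ⟨u, hu, rfl⟩ _ ⟨v, hv, rfl⟩ hne
    exact ((graph_adj u v).1 (hK.prop hu hv (fun e => hne (by rw [e])))).2.2
  · intro w hw hadj
    obtain ⟨w, rfl⟩ := exists_code hw
    refine ⟨w, hmax w fun v hv hne => ?_, rfl⟩
    exact (graph_adj v w).2 ⟨hKv v hv, hw, hadj _ ⟨v, hv, rfl⟩ (fun e => hne (dec_inj' e))⟩
  · rintro _ ⟨_, hv⟩
    exact hv
  · rintro _ ⟨⟨u, hu, rfl⟩, hu'⟩ _ ⟨⟨v, hv, rfl⟩, hv'⟩ hne hadj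
    exact hS.prop hu hv (fun e => hne (by rw [e])) ((graph_adj u v).2 ⟨hu', hv', hadj⟩)
  · rintro _ ⟨u, hu, rfl⟩ ⟨⟨v, hv, hvu⟩, _⟩
    have : v = u := dec_inj' hvu
    subst this
    exact hdis _ hu hv
  · rintro _ ⟨u, hu, rfl⟩
    obtain ⟨v, hv, hadj⟩ := hdom u hu
    have h1 := (graph_adj u v).1 hadj
    exact ⟨_, ⟨⟨v, hv, rfl⟩, h1.2.1⟩, h1.2.2⟩

/-- **Correctness of the reduction.** -/
theorem red_correct (φ : List (List (Bool × ℕ))) : SAT φ ↔ ¬ CIS (graph (red φ)) := by
  refine ⟨not_cis_of_sat, fun h => ?_⟩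
  by_contra hno
  exact h (cis_of_unsat hno)

/-! ### Polynomial time -/

theorem poly_vs : Poly vs := by
  unfold vs
  fun_prop

theorem poly_W : Poly W := by
  unfold W nn
  have := poly_vs
  fun_prop

theorem uPoly_NN : UPoly (fun φ : List (List (Bool × ℕ)) => NN φ) := by
  have h1 : UPoly (fun φ : List (List (Bool × ℕ)) => (vs φ).length) := UPoly.length poly_vs
  have h2 : UPoly (fun φ : List (List (Bool × ℕ)) => φ.length) := UPoly.length Poly.id
  unfold NN mm W nn
  exact UPoly.mul (UPoly.add (UPoly.add h2 (UPoly.const 2)) (UPoly.const 1))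
    (UPoly.mul (UPoly.const 2) (UPoly.add h1 (UPoly.const 2)))

theorem poly_ren : Poly (fun p : List ℕ × List (Bool × ℕ) => ren p.1 p.2) := by
  unfold ren
  have h : Poly (fun p : (List ℕ × List (Bool × ℕ)) × (Bool × ℕ) => index p.1.1 p.2.2) :=
    Poly.index (by fun_prop) (by fun_prop)
  fun_prop

theorem poly_cl : Poly (fun p : List (List (Bool × ℕ)) × ℕ => cl p.1 p.2) := by
  unfold cl
  have h2 : Poly (fun p : List (List (Bool × ℕ)) × ℕ => vs p.1) := poly_vs.comp (Poly.fst Poly.id)
  have h3 : Poly (fun p : List (List (Bool × ℕ)) × ℕ => (vs p.1).length) := Poly.length h2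
  have h4 : Poly (fun p : List (List (Bool × ℕ)) × ℕ => ren (vs p.1) (p.1.getD p.2 [])) :=
    poly_ren.comp (Poly.pair h2 (NPC.Poly.getD (by fun_prop) (by fun_prop) (by fun_prop)))
  refine Poly.ite (by fun_prop) (by fun_prop) (Poly.ite (by fun_prop) (by fun_prop) h4)

theorem poly_lit {α : Type} [TEnc α] {w u : α → ℕ} (hw : Poly w) (hu : Poly u) :
    Poly (fun a => lit (w a) (u a)) := by
  unfold lit
  fun_prop

theorem pp_ok {α : Type} [TEnc α] {φ : α → List (List (Bool × ℕ))} {u : α → ℕ} (hφ : Poly φ)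
    (hu : Poly u) : PP (fun a => ok (φ a) (u a)) := by
  have hW : Poly (fun a => W (φ a)) := poly_W.comp hφ
  have hl := poly_lit hW hu
  unfold ok
  refine PP.or (PP.eq (by fun_prop) (by fun_prop)) (PP.not (PP.mem hl ?_))
  exact poly_cl.comp (f := fun a => (φ a, u a / W (φ a) - 1)) (by fun_prop)

theorem poly_adj1 {α : Type} [TEnc α] {φ : α → List (List (Bool × ℕ))} {u v : α → ℕ} (hφ : Poly φ)
    (hu : Poly u) (hv : Poly v) : Poly (fun a => adj1 (φ a) (u a) (v a)) := by
  have hW : Poly (fun a => W (φ a)) := poly_W.comp hφ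
  have hlu := poly_lit hW hu
  have hlv := poly_lit hW hv
  unfold adj1
  refine PP.dec (inst := _) ?_
  refine PP.and (pp_ok hφ hu) (PP.and (pp_ok hφ hv) (PP.or ?_ ?_))
  · exact PP.and (PP.eq (by fun_prop) (by fun_prop)) (PP.ne (by fun_prop) (by fun_prop))
  · refine PP.and (PP.eq (by fun_prop) (by fun_prop)) (PP.and (PP.ne (by fun_prop) (by fun_prop))
      (PP.and (PP.not (PP.mem hlu ?_)) (PP.or (PP.ne (by fun_prop) (by fun_prop))
        (PP.eq (by fun_prop) (by fun_prop)))))
    exact poly_cl.comp (f := fun a => (φ a, v a / W (φ a) - 1)) (by fun_prop)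

theorem red_poly : Poly red := by
  unfold red
  have hr : Poly (fun φ : List (List (Bool × ℕ)) => List.range (NN φ)) := uPoly_NN.range
  refine NPC.Poly.map (F := fun φ u => (List.range (NN φ)).map
    (fun v => adj1 φ u v || adj1 φ v u)) hr ?_
  refine NPC.Poly.map (F := fun (p : List (List (Bool × ℕ)) × ℕ) v => adj1 p.1 p.2 v || adj1 p.1 v p.2)
    (hr.comp (Poly.fst Poly.id)) ?_
  exact Poly.or (poly_adj1 (by fun_prop) (by fun_prop) (by fun_prop))
    (poly_adj1 (by fun_prop) (by fun_prop) (by fun_prop))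

/-! ### Membership in coNP -/

/-- the pair `w` of lists consists of a maximal clique and a maximal stable set that are disjoint -/
def Chk (A : Inst) (w : List ℕ × List ℕ) : Prop :=
  ((∀ u ∈ w.1, u < A.length) ∧ (∀ u ∈ w.1, ∀ v ∈ w.1, u = v ∨ entry A u v = true) ∧
    (∀ x ∈ List.range A.length, (∃ u ∈ w.1, ¬ (u = x ∨ entry A u x = true)) ∨ x ∈ w.1)) ∧
  ((∀ u ∈ w.2, u < A.length) ∧ (∀ u ∈ w.2, ∀ v ∈ w.2, u = v ∨ ¬ entry A u v = true) ∧
    (∀ x ∈ List.range A.length, (∃ u ∈ w.2, ¬ (u = x ∨ ¬ entry A u x = true)) ∨ x ∈ w.2)) ∧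
  ∀ u ∈ w.1, ¬ u ∈ w.2

/-- the matrix is an adjacency matrix, in terms of the entries in the matrix -/
def ValidL (A : Inst) : Prop :=
  (∀ r ∈ A, r.length = A.length) ∧
    (∀ u ∈ List.range A.length, ∀ v ∈ List.range A.length, entry A u v = entry A v u) ∧
    ∀ u ∈ List.range A.length, entry A u u = false

theorem entry_out {A : Inst} (h : ∀ r ∈ A, r.length = A.length) {u v : ℕ}
    (huv : A.length ≤ u ∨ A.length ≤ v) : entry A u v = false := by
  unfold entry
  by_cases hu : u < A.length
  · have hv : A.length ≤ v := huv.resolve_left (by omega)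
    have h1 := h _ (List.getElem_mem hu)
    have h2 : A.getD u [] = A[u] := by
      rw [List.getD_eq_getElem?_getD, List.getElem?_eq_getElem hu]
      rfl
    rw [h2, List.getD_eq_getElem?_getD, List.getElem?_eq_none (by omega)]
    rfl
  · have h2 : A.getD u [] = [] := by
      rw [List.getD_eq_getElem?_getD, List.getElem?_eq_none (by omega)]
      rfl
    rw [h2]
    simp

theorem validL_iff (A : Inst) : ValidL A ↔ Valid A := by
  constructor
  · rintro ⟨h1, h2, h3⟩
    refine ⟨h1, fun u v => ?_, fun u => ?_⟩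
    · by_cases hu : u < A.length
      · by_cases hv : v < A.length
        · exact h2 u (List.mem_range.2 hu) v (List.mem_range.2 hv)
        · rw [entry_out h1 (Or.inr (by omega)), entry_out h1 (Or.inl (by omega))]
      · rw [entry_out h1 (Or.inl (by omega)), entry_out h1 (Or.inr (by omega))]
    · by_cases hu : u < A.length
      · exact h3 u (List.mem_range.2 hu)
      · exact entry_out h1 (Or.inl (by omega))
  · rintro ⟨h1, h2, h3⟩
    exact ⟨h1, fun u _ v _ => h2 u v, fun u _ => h3 u⟩

theorem poly_entry {α : Type} [TEnc α] {A : α → Inst} {u v : α → ℕ} (hA : Poly A) (hu : Poly u)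
    (hv : Poly v) : Poly (fun a => entry (A a) (u a) (v a)) := by
  unfold entry
  exact NPC.Poly.getD (NPC.Poly.getD hA hu (NPC.Poly.const _)) hv (NPC.Poly.const _)

theorem poly_range {α : Type} [TEnc α] {A : α → Inst} (hA : Poly A) :
    Poly (fun a => List.range (A a).length) := (UPoly.length hA).range

theorem pp_validL : PP ValidL := by
  unfold ValidL
  refine PP.and ?_ (PP.and ?_ ?_)
  · exact PP.ball (r := fun (A : Inst) (r : List Bool) => r.length = A.length) Poly.id
      (PP.eq (by fun_prop) (by fun_prop))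
  · refine PP.ball (r := fun (A : Inst) (u : ℕ) => ∀ v ∈ List.range A.length,
      entry A u v = entry A v u) (poly_range Poly.id) ?_
    refine PP.ball (r := fun (x : Inst × ℕ) (v : ℕ) => entry x.1 x.2 v = entry x.1 v x.2)
      (poly_range (by fun_prop)) ?_
    exact PP.eq (poly_entry (by fun_prop) (by fun_prop) (by fun_prop))
      (poly_entry (by fun_prop) (by fun_prop) (by fun_prop))
  · refine PP.ball (r := fun (A : Inst) (u : ℕ) => entry A u u = false) (poly_range Poly.id) ?_
    exact PP.eq (poly_entry (by fun_prop) (by fun_prop) (by fun_prop)) (by fun_prop)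

theorem pp_chk : PP (fun x : Inst × (List ℕ × List ℕ) => Chk x.1 x.2) := by
  unfold Chk
  refine PP.and (PP.and ?_ (PP.and ?_ ?_)) (PP.and (PP.and ?_ (PP.and ?_ ?_)) ?_)
  · exact PP.ball (r := fun (x : Inst × (List ℕ × List ℕ)) (u : ℕ) => u < x.1.length)
      (by fun_prop) (PP.lt (by fun_prop) (by fun_prop))
  · refine PP.ball (r := fun (x : Inst × (List ℕ × List ℕ)) (u : ℕ) =>
      ∀ v ∈ x.2.1, u = v ∨ entry x.1 u v = true) (by fun_prop) ?_
    refine PP.ball (r := fun (x : (Inst × (List ℕ × List ℕ)) × ℕ) (v : ℕ) =>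
      x.2 = v ∨ entry x.1.1 x.2 v = true) (by fun_prop) ?_
    exact PP.or (PP.eq (by fun_prop) (by fun_prop))
      (PP.bool (poly_entry (by fun_prop) (by fun_prop) (by fun_prop)))
  · refine PP.ball (r := fun (x : Inst × (List ℕ × List ℕ)) (z : ℕ) =>
      (∃ u ∈ x.2.1, ¬ (u = z ∨ entry x.1 u z = true)) ∨ z ∈ x.2.1)
      (poly_range (by fun_prop)) ?_
    refine PP.or ?_ (PP.mem (by fun_prop) (by fun_prop))
    refine PP.bex (r := fun (x : (Inst × (List ℕ × List ℕ)) × ℕ) (u : ℕ) =>
      ¬ (u = x.2 ∨ entry x.1.1 u x.2 = true)) (by fun_prop) ?_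
    exact PP.not (PP.or (PP.eq (by fun_prop) (by fun_prop))
      (PP.bool (poly_entry (by fun_prop) (by fun_prop) (by fun_prop))))
  · exact PP.ball (r := fun (x : Inst × (List ℕ × List ℕ)) (u : ℕ) => u < x.1.length)
      (by fun_prop) (PP.lt (by fun_prop) (by fun_prop))
  · refine PP.ball (r := fun (x : Inst × (List ℕ × List ℕ)) (u : ℕ) =>
      ∀ v ∈ x.2.2, u = v ∨ ¬ entry x.1 u v = true) (by fun_prop) ?_
    refine PP.ball (r := fun (x : (Inst × (List ℕ × List ℕ)) × ℕ) (v : ℕ) =>
      x.2 = v ∨ ¬ entry x.1.1 x.2 v = true) (by fun_prop) ?_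
    exact PP.or (PP.eq (by fun_prop) (by fun_prop))
      (PP.not (PP.bool (poly_entry (by fun_prop) (by fun_prop) (by fun_prop))))
  · refine PP.ball (r := fun (x : Inst × (List ℕ × List ℕ)) (z : ℕ) =>
      (∃ u ∈ x.2.2, ¬ (u = z ∨ ¬ entry x.1 u z = true)) ∨ z ∈ x.2.2)
      (poly_range (by fun_prop)) ?_
    refine PP.or ?_ (PP.mem (by fun_prop) (by fun_prop))
    refine PP.bex (r := fun (x : (Inst × (List ℕ × List ℕ)) × ℕ) (u : ℕ) =>
      ¬ (u = x.2 ∨ ¬ entry x.1.1 u x.2 = true)) (by fun_prop) ?_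
    exact PP.not (PP.or (PP.eq (by fun_prop) (by fun_prop))
      (PP.not (PP.bool (poly_entry (by fun_prop) (by fun_prop) (by fun_prop)))))
  · exact PP.ball (r := fun (x : Inst × (List ℕ × List ℕ)) (u : ℕ) => ¬ u ∈ x.2.2)
      (by fun_prop) (PP.not (PP.mem (by fun_prop) (by fun_prop)))

theorem graph_adj_entry {A : Inst} (hA : Valid A) (u v : Fin A.length) :
    (graph A).Adj u v ↔ u ≠ v ∧ entry A u v = true := by
  unfold graph
  rw [SimpleGraph.fromRel_adj, hA.2.1 v u, or_self]

/-- the list of the elements of a set of vertices -/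
noncomputable def toL {n : ℕ} (K : Set (Fin n)) : List ℕ := by
  classical exact (List.range n).filter (fun u => decide (∃ h : u < n, (⟨u, h⟩ : Fin n) ∈ K))

theorem mem_toL {n : ℕ} {K : Set (Fin n)} {u : ℕ} :
    u ∈ toL K ↔ ∃ h : u < n, (⟨u, h⟩ : Fin n) ∈ K := by
  unfold toL
  simp only [List.mem_filter, decide_eq_true_eq, List.mem_range]
  constructor
  · exact fun h => h.2
  · rintro ⟨h, h'⟩
    exact ⟨h, h, h'⟩

theorem chk_of {A : Inst} (hA : Valid A) {K S : Set (Fin A.length)}
    (hK : Maximal (graph A).IsClique K) (hS : Maximal (graph A).IsIndepSet S)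
    (hdis : ¬ (K ∩ S).Nonempty) : Chk A (toL K, toL S) := by
  refine ⟨⟨?_, ?_, ?_⟩, ⟨?_, ?_, ?_⟩, ?_⟩
  · intro u hu
    exact (mem_toL.1 hu).1
  · intro u hu v hv
    obtain ⟨hu, hu'⟩ := mem_toL.1 hu
    obtain ⟨hv, hv'⟩ := mem_toL.1 hv
    by_cases huv : u = v
    · exact Or.inl huv
    · exact Or.inr ((graph_adj_entry hA ⟨u, hu⟩ ⟨v, hv⟩).1
        (hK.prop hu' hv' (fun e => huv (Fin.mk.inj e)))).2
  · intro x hx
    rw [List.mem_range] at hx
    by_cases h : ∃ u ∈ toL K, ¬ (u = x ∨ entry A u x = true)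
    · exact Or.inl h
    right
    push Not at h
    refine mem_toL.2 ⟨hx, ?_⟩
    have h1 : (graph A).IsClique (insert ⟨x, hx⟩ K) := by
      refine hK.prop.insert fun v hv hne => ?_
      have h2 := h v (mem_toL.2 ⟨v.isLt, hv⟩)
      refine ((graph_adj_entry hA v ⟨x, hx⟩).2 ⟨hne.symm, h2.resolve_left fun e => ?_⟩).symm
      exact hne (Fin.ext e.symm)
    exact hK.le_of_ge h1 (Set.subset_insert _ _) (Set.mem_insert _ _)
  · intro u hu
    exact (mem_toL.1 hu).1
  · intro u hu v hv
    obtain ⟨hu, hu'⟩ := mem_toL.1 hu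
    obtain ⟨hv, hv'⟩ := mem_toL.1 hv
    by_cases huv : u = v
    · exact Or.inl huv
    · right
      intro he
      have hne : (⟨u, hu⟩ : Fin A.length) ≠ ⟨v, hv⟩ := fun e => huv (Fin.mk.inj e)
      exact hS.prop hu' hv' hne ((graph_adj_entry hA _ _).2 ⟨hne, he⟩)
  · intro x hx
    rw [List.mem_range] at hx
    by_cases h : ∃ u ∈ toL S, ¬ (u = x ∨ ¬ entry A u x = true)
    · exact Or.inl h
    right
    push Not at h
    refine mem_toL.2 ⟨hx, ?_⟩
    have h1 : (graph A).IsIndepSet (insert ⟨x, hx⟩ S) := by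
      have key : ∀ v ∈ S, ¬ (graph A).Adj v ⟨x, hx⟩ := by
        intro v hv hadj
        have h2 := h v (mem_toL.2 ⟨v.isLt, hv⟩)
        have h3 := (graph_adj_entry hA v ⟨x, hx⟩).1 hadj
        rcases h2 with h2 | h2
        · exact h3.1 (Fin.ext h2)
        · exact h2 h3.2
      intro y hy z hz hne hadj
      rcases hy with rfl | hy <;> rcases hz with rfl | hz
      · exact hne rfl
      · exact key z hz hadj.symm
      · exact key y hy hadj
      · exact hS.prop hy hz hne hadj
    exact hS.le_of_ge h1 (Set.subset_insert _ _) (Set.mem_insert _ _)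
  · intro u hu hu'
    obtain ⟨h1, h2⟩ := mem_toL.1 hu
    obtain ⟨h3, h4⟩ := mem_toL.1 hu'
    exact hdis ⟨⟨u, h1⟩, h2, h4⟩

theorem not_cis_of_chk {A : Inst} (hA : Valid A) {w : List ℕ × List ℕ} (h : Chk A w) :
    ¬ CIS (graph A) := by
  obtain ⟨⟨h1, h2, h3⟩, ⟨h4, h5, h6⟩, h7⟩ := h
  intro hcis
  have hK : Maximal (graph A).IsClique {u : Fin A.length | (u : ℕ) ∈ w.1} := by
    refine ⟨?_, ?_⟩
    · intro u hu v hv hne
      exact (graph_adj_entry hA u v).2 ⟨hne, (h2 u hu v hv).resolve_left fun e => hne (Fin.ext e)⟩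
    · intro L hL hle x hx
      rcases h3 x (List.mem_range.2 x.isLt) with ⟨u, hu, hux⟩ | h
      · exfalso
        have huL : (⟨u, h1 u hu⟩ : Fin A.length) ∈ L := hle (show u ∈ w.1 from hu)
        by_cases he : (⟨u, h1 u hu⟩ : Fin A.length) = x
        · apply hux
          left
          rw [← he]
        · exact hux (Or.inr ((graph_adj_entry hA _ x).1 (hL huL hx he)).2)
      · exact h
  have hS : Maximal (graph A).IsIndepSet {u : Fin A.length | (u : ℕ) ∈ w.2} := by
    refine ⟨?_, ?_⟩
    · intro u hu v hv hne hadj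
      exact ((h5 u hu v hv).resolve_left fun e => hne (Fin.ext e))
        ((graph_adj_entry hA u v).1 hadj).2
    · intro L hL hle x hx
      rcases h6 x (List.mem_range.2 x.isLt) with ⟨u, hu, hux⟩ | h
      · exfalso
        have huL : (⟨u, h4 u hu⟩ : Fin A.length) ∈ L := hle (show u ∈ w.2 from hu)
        by_cases he : (⟨u, h4 u hu⟩ : Fin A.length) = x
        · apply hux
          left
          rw [← he]
        · apply hux
          right
          intro he'
          exact hL huL hx he ((graph_adj_entry hA _ x).2 ⟨he, he'⟩)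
      · exact h
  obtain ⟨u, hu, hu'⟩ := hcis _ _ hK hS
  exact h7 _ hu hu'

theorem sz_toL_le {n : ℕ} (K : Set (Fin n)) : sz (toL K) ≤ n * (4 * n + 2) + 1 := by
  unfold toL
  exact (TH660.RB.sz_filter_le _ _).trans (NPC.Poly.sz_range_le n n le_rfl)

theorem inCoNP : InCoNPP (fun A : Inst => Valid A ∧ CIS (graph A)) := by
  have hpp : PP (fun x : Inst × (List ℕ × List ℕ) => ¬ ValidL x.1 ∨ Chk x.1 x.2) :=
    PP.or (PP.not (pp_validL.comp (Poly.fst Poly.id))) pp_chk
  obtain ⟨R, hR, hR'⟩ := hpp
  refine inCoNPP_of (β := List ℕ × List ℕ) hR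
    (2 * (Polynomial.X * (4 * Polynomial.X + 2) + 1) + 1) fun A => ?_
  simp only [hR', validL_iff, Polynomial.eval_mul, Polynomial.eval_add, Polynomial.eval_X,
    Polynomial.eval_ofNat, Polynomial.eval_one]
  constructor
  · intro h
    by_cases hA : Valid A
    · have h' : ¬ CIS (graph A) := fun hc => h ⟨hA, hc⟩
      unfold CIS at h'
      push Not at h'
      obtain ⟨K, S, hK, hS, hdis⟩ := h'
      refine ⟨(toL K, toL S), ?_, Or.inr (chk_of hA hK hS ?_)⟩
      · have h1 := sz_toL_le K
        have h2 := sz_toL_le S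
        have h3 : A.length < sz A := length_lt_sz A
        have h4 : A.length * (4 * A.length + 2) ≤ sz A * (4 * sz A + 2) :=
          Nat.mul_le_mul (by omega) (by omega)
        rw [sz_pair]
        omega
      · rw [Set.not_nonempty_iff_eq_empty]
        exact hdis
    · refine ⟨([], []), ?_, Or.inl hA⟩
      rw [sz_pair]
      simp
  · rintro ⟨w, _, h | h⟩ ⟨hA, hc⟩
    · exact h hA
    · exact not_cis_of_chk hA h hc

/-! ### The result -/

theorem hard : CoNPHardOn Valid (fun A => CIS (graph A)) :=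
  coNPHardOn_of hardI_SAT.toHardPr red_poly (fun _ _ => red_valid) fun φ _ => red_correct φ

/-- A function that decides whether a graph, given by its adjacency matrix, is CIS. -/
def Decides (D : List Bool → List Bool) : Prop :=
  ∀ A, Valid A → (D (bits A) = [true] ↔ CIS (graph A))

/-- **CIS recognition is `coNP`-complete**: the set of the adjacency matrices of the CIS graphs is in
`coNP`, and it is `coNP`-hard under polynomial-time many-one reductions; moreover, for every language
`L` in `coNP` there is a polynomial-time computable function which assigns to each word `x` the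
adjacency matrix of a finite simple graph which is CIS if and only if `x ∈ L`. In particular, if
`P ≠ NP` then no polynomial-time algorithm decides whether a given graph is CIS. -/
theorem result :
    InCoNPP (fun A : Inst => Valid A ∧ CIS (graph A)) ∧
    CoNPHardP (fun A : Inst => Valid A ∧ CIS (graph A)) ∧
    CoNPHardOn Valid (fun A => CIS (graph A)) ∧
    (PneNP → ¬ ∃ D : List Bool → List Bool, PolyTime D ∧ Decides D) := by
  refine ⟨inCoNP, ?_, hard, ?_⟩
  · intro L hL
    obtain ⟨f, hf, hv, hfL⟩ := hard L hL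
    refine ⟨fun x => bits (f x), hf, fun x => ?_⟩
    rw [bits_mem_lang, hfL x]
    exact ⟨fun h => ⟨hv x, h⟩, fun h => h.2⟩
  · rintro ⟨L, hL, hL'⟩ ⟨D, hD, hd⟩
    apply hL'
    have hLc : InCoNP Lᶜ := by
      unfold InCoNP
      rwa [compl_compl]
    obtain ⟨f, hf, hv, hfL⟩ := hard Lᶜ hLc
    have hDf : PolyTime (fun x => D (bits (f x))) :=
      H642R2.TMSim.polyTime_comp (g := D) (f := fun x => bits (f x)) hD hf
    refine ⟨fun x => [!decide (D (bits (f x)) = [true])], ?_, fun x => ?_⟩
    · exact polyTime_test (g := fun y => !decide (y = [true])) hDf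
        (NPC.Poly.not (Poly.decide_eq Poly.id (NPC.Poly.const _)))
    · have h1 := (hfL x).trans (hd _ (hv x)).symm
      rw [Set.mem_compl_iff] at h1
      by_cases hx : D (bits (f x)) = [true]
      · simp only [hx, decide_true, Bool.not_true]
        exact ⟨fun h => absurd h (h1.2 hx), fun h => by simp at h⟩
      · simp only [hx, decide_false, Bool.not_false, iff_true]
        by_contra h
        exact hx (h1.1 h)

end Pool.Agent.Results.MP_bb030f_lc.CoNPComplete
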